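import Pool.Agent.Q204.WD.Basic

set_option autoImplicit false

/-!
# Computability of the basic operations on finite sequences, transitivity of reducibility
-/

namespace Q204.WD

/-- The elements with even index. -/
def evens (l : List ℕ) : List ℕ := (List.range ((l.length + 1) / 2)).map (fun i => l.getD (2 * i) 0)

/-- The elements with odd index. -/
def odds (l : List ℕ) : List ℕ := (List.range (l.length / 2)).map (fun i => l.getD (2 * i + 1) 0)

theorem evens_pre (p : ℕ → ℕ) (n : ℕ) : evens (pre p n) = pre (fun i => p (2 * i)) ((n + 1) / 2) := by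
  unfold evens
  rw [pre_length]
  apply List.map_congr_left
  intro i hi
  rw [List.mem_range] at hi
  exact pre_getD _ _ _ (by omega)

theorem odds_pre (p : ℕ → ℕ) (n : ℕ) : odds (pre p n) = pre (fun i => p (2 * i + 1)) (n / 2) := by
  unfold odds
  rw [pre_length]
  apply List.map_congr_left
  intro i hi
  rw [List.mem_range] at hi
  exact pre_getD _ _ _ (by omega)

@[simp] theorem join_even (p q : ℕ → ℕ) (i : ℕ) : join p q (2 * i) = p i := by
  unfold join
  rw [if_pos (by omega)]
  congr 1
  omega

@[simp] theorem join_odd (p q : ℕ → ℕ) (i : ℕ) : join p q (2 * i + 1) = q i := by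
  unfold join
  rw [if_neg (by omega)]
  congr 1
  omega

theorem evens_pre_join (p q : ℕ → ℕ) (n : ℕ) : evens (pre (join p q) n) = pre p ((n + 1) / 2) := by
  rw [evens_pre]
  exact pre_congr (fun i _ => join_even p q i)

theorem odds_pre_join (p q : ℕ → ℕ) (n : ℕ) : odds (pre (join p q) n) = pre q (n / 2) := by
  rw [odds_pre]
  exact pre_congr (fun i _ => join_odd p q i)

theorem map_range_prefix {f g : ℕ → ℕ} {m n : ℕ} (hmn : m ≤ n) (h : ∀ i < m, f i = g i) :
    (List.range m).map f <+: (List.range n).map g := by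
  have h1 : (List.range m).map f = (List.range m).map g :=
    List.map_congr_left (fun i hi => h i (List.mem_range.1 hi))
  rw [h1]
  exact pre_prefix (p := g) hmn

theorem mono_evens : Mono evens := by
  intro l l' h
  have hl := h.length_le
  apply map_range_prefix (by omega)
  intro i hi
  exact (prefix_iff_getD.1 h).2 _ (by omega)

theorem mono_odds : Mono odds := by
  intro l l' h
  have hl := h.length_le
  apply map_range_prefix (by omega)
  intro i hi
  exact (prefix_iff_getD.1 h).2 _ (by omega)

theorem Conv.evens {a : ℕ → List ℕ} {p q : ℕ → ℕ} (h : Conv a (Q204.WD.join p q)) :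
    Conv (fun n => evens (a n)) p := by
  have key : ∀ n, Q204.WD.evens (a n) = pre p (((a n).length + 1) / 2) := by
    intro n
    conv_lhs => rw [h.1 n]
    rw [evens_pre_join]
  constructor
  · intro n
    show Q204.WD.evens (a n) = pre p (Q204.WD.evens (a n)).length
    rw [key n, pre_length]
  · intro m
    obtain ⟨N, hN⟩ := h.2 (2 * m)
    refine ⟨N, fun n hn => ?_⟩
    show m ≤ (Q204.WD.evens (a n)).length
    rw [key n, pre_length]
    have := hN n hn
    omega

theorem Conv.odds {a : ℕ → List ℕ} {p q : ℕ → ℕ} (h : Conv a (Q204.WD.join p q)) :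
    Conv (fun n => odds (a n)) q := by
  have key : ∀ n, Q204.WD.odds (a n) = pre q ((a n).length / 2) := by
    intro n
    conv_lhs => rw [h.1 n]
    rw [odds_pre_join]
  constructor
  · intro n
    show Q204.WD.odds (a n) = pre q (Q204.WD.odds (a n)).length
    rw [key n, pre_length]
  · intro m
    obtain ⟨N, hN⟩ := h.2 (2 * m)
    refine ⟨N, fun n hn => ?_⟩
    show m ≤ (Q204.WD.odds (a n)).length
    rw [key n, pre_length]
    have := hN n hn
    omega

theorem Conv.eval {φ : List ℕ → List ℕ} {p r : ℕ → ℕ} (h : Conv (fun n => φ (pre p n)) r) :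
    Eval φ p r := by
  intro m
  obtain ⟨N, hN⟩ := h.2 m
  refine ⟨N, ?_⟩
  have h1 : φ (pre p N) = pre r (φ (pre p N)).length := h.1 N
  rw [h1]
  exact pre_prefix (hN N le_rfl)

theorem primrec_evens : Primrec evens := by
  unfold evens
  apply Primrec.list_map
  · exact Primrec.list_range.comp (Primrec.nat_div.comp
      (Primrec.succ.comp Primrec.list_length) (Primrec.const 2))
  · exact (Primrec.list_getD 0).comp Primrec.fst (Primrec.nat_mul.comp (Primrec.const 2) Primrec.snd)

theorem primrec_odds : Primrec odds := by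
  unfold odds
  apply Primrec.list_map
  · exact Primrec.list_range.comp (Primrec.nat_div.comp Primrec.list_length (Primrec.const 2))
  · exact (Primrec.list_getD 0).comp Primrec.fst
      (Primrec.succ.comp (Primrec.nat_mul.comp (Primrec.const 2) Primrec.snd))

theorem primrec_joinL : Primrec₂ joinL := by
  unfold joinL
  show Primrec (fun x : List ℕ × List ℕ => (List.range (2 * min x.1.length x.2.length)).map
    (fun i => if i % 2 = 0 then x.1.getD (i / 2) 0 else x.2.getD (i / 2) 0))
  apply Primrec.list_map
  · exact Primrec.list_range.comp (Primrec.nat_mul.comp (Primrec.const 2)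
      (Primrec.nat_min.comp (Primrec.list_length.comp Primrec.fst)
        (Primrec.list_length.comp Primrec.snd)))
  · apply Primrec.ite
    · exact Primrec.eq.comp (Primrec.nat_mod.comp Primrec.snd (Primrec.const 2)) (Primrec.const 0)
    · exact (Primrec.list_getD 0).comp (Primrec.fst.comp Primrec.fst)
        (Primrec.nat_div.comp Primrec.snd (Primrec.const 2))
    · exact (Primrec.list_getD 0).comp (Primrec.snd.comp Primrec.fst)
        (Primrec.nat_div.comp Primrec.snd (Primrec.const 2))

theorem computable_joinL {α : Type} [Primcodable α] {f g : α → List ℕ} (hf : Computable f)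
    (hg : Computable g) : Computable (fun a => joinL (f a) (g a)) :=
  (Primrec.to_comp primrec_joinL).comp (hf.pair hg)

theorem WRed.refl (f : Problem) : WRed f f := by
  refine ⟨fun l => l, odds, ⟨Computable.id, fun _ _ h => h⟩,
    ⟨primrec_odds.to_comp, mono_odds⟩, fun p hp => ⟨p, (conv_pre p).eval, hp, fun q hq => ?_⟩⟩
  exact ⟨q, ((conv_pre (join p q)).odds).eval, hq⟩

theorem WRed.trans {f g h : Problem} (h1 : WRed f g) (h2 : WRed g h) : WRed f h := by
  obtain ⟨φ, ψ, ⟨hφc, hφ⟩, ⟨hψc, hψ⟩, hr⟩ := h1
  obtain ⟨φ', ψ', ⟨hφc', hφ'⟩, ⟨hψc', hψ'⟩, hr'⟩ := h2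
  refine ⟨fun l => φ' (φ l),
    fun l => ψ (joinL (evens l) (ψ' (joinL (φ (evens l)) (odds l)))), ⟨hφc'.comp hφc,
      fun l l' h => hφ' _ _ (hφ _ _ h)⟩, ⟨?_, ?_⟩, ?_⟩
  · exact hψc.comp (computable_joinL primrec_evens.to_comp
      (hψc'.comp (computable_joinL (hφc.comp primrec_evens.to_comp) primrec_odds.to_comp)))
  · intro l l' h
    apply hψ
    apply joinL_prefix (mono_evens _ _ h)
    apply hψ'
    exact joinL_prefix (hφ _ _ (mono_evens _ _ h)) (mono_odds _ _ h)
  · intro p hp
    obtain ⟨u, hu, hudom, hsol⟩ := hr p hp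
    obtain ⟨v, hv, hvdom, hsol'⟩ := hr' u hudom
    refine ⟨v, ((hu.conv hφ).comp hφ' hv).eval, hvdom, fun q hq => ?_⟩
    obtain ⟨s, hs, hsg⟩ := hsol' q hq
    obtain ⟨t, ht, htf⟩ := hsol s hsg
    refine ⟨t, ?_, htf⟩
    have c0 := conv_pre (join p q)
    have c1 : Conv (fun n => φ (evens (pre (join p q) n))) u := (c0.evens).comp hφ hu
    have c2 := (c1.join c0.odds).comp hψ' hs
    exact ((c0.evens.join c2).comp hψ ht).eval

end Q204.WD
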