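import Pool.Agent.Q204.WD.Defs

set_option autoImplicit false

namespace Q204.WD

@[simp] theorem pre_length (p : ℕ → ℕ) (n : ℕ) : (pre p n).length = n := by
  simp [pre]

theorem pre_getElem (p : ℕ → ℕ) (n i : ℕ) (h : i < (pre p n).length) : (pre p n)[i] = p i := by
  simp [pre]

theorem pre_succ (p : ℕ → ℕ) (n : ℕ) : pre p (n + 1) = pre p n ++ [p n] := by
  simp [pre, List.range_succ]

theorem pre_prefix {p : ℕ → ℕ} {m n : ℕ} (h : m ≤ n) : pre p m <+: pre p n := by
  induction h with
  | refl => exact List.prefix_refl _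
  | step _ ih =>
    rw [pre_succ]
    exact ih.trans (List.prefix_append _ _)

theorem pre_congr {p q : ℕ → ℕ} {n : ℕ} (h : ∀ i < n, p i = q i) : pre p n = pre q n := by
  apply List.map_congr_left
  intro i hi
  exact h i (List.mem_range.1 hi)

theorem pre_eq_iff {p q : ℕ → ℕ} {n : ℕ} : pre p n = pre q n ↔ ∀ i < n, p i = q i := by
  constructor
  · intro h i hi
    have h1 := pre_getElem p n i (by simpa using hi)
    have h2 := pre_getElem q n i (by simpa using hi)
    rw [← h1, ← h2]
    simp only [h]
  · exact pre_congr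

theorem prefix_eq_pre {p : ℕ → ℕ} {n : ℕ} {l : List ℕ} (h : l <+: pre p n) :
    l = pre p l.length := by
  have hl : l.length ≤ n := by simpa using h.length_le
  have h1 := pre_prefix (p := p) hl
  exact (List.prefix_of_prefix_length_le h h1 (by simp)).eq_of_length (by simp)

/-- A sequence of lists converging to an infinite sequence. -/
def Conv (a : ℕ → List ℕ) (u : ℕ → ℕ) : Prop :=
  (∀ n, a n = pre u (a n).length) ∧ ∀ m, ∃ N, ∀ n, N ≤ n → m ≤ (a n).length

theorem conv_pre (p : ℕ → ℕ) : Conv (pre p) p :=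
  ⟨fun n => by simp, fun m => ⟨m, fun n hn => by simpa using hn⟩⟩

theorem Conv.comp {a : ℕ → List ℕ} {u r : ℕ → ℕ} {ψ : List ℕ → List ℕ} (ha : Conv a u)
    (hψ : Mono ψ) (hr : Eval ψ u r) : Conv (fun n => ψ (a n)) r := by
  have hpre : ∀ k, ψ (pre u k) = pre r (ψ (pre u k)).length := by
    intro k
    obtain ⟨n, hn⟩ := hr (ψ (pre u k)).length
    have h1 : ψ (pre u k) <+: ψ (pre u (max n k)) := hψ _ _ (pre_prefix (le_max_right _ _))
    have h2 : pre r (ψ (pre u k)).length <+: ψ (pre u (max n k)) :=
      hn.trans (hψ _ _ (pre_prefix (le_max_left _ _)))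
    exact (List.prefix_of_prefix_length_le h1 h2 (by simp)).eq_of_length (by simp)
  constructor
  · intro n
    show ψ (a n) = pre r (ψ (a n)).length
    rw [ha.1 n]
    exact hpre _
  · intro m
    obtain ⟨k, hk⟩ := hr m
    obtain ⟨N, hN⟩ := ha.2 k
    refine ⟨N, fun n hn => ?_⟩
    have h1 : pre u k <+: a n := by
      rw [ha.1 n]
      exact pre_prefix (hN n hn)
    have h2 := (hk.trans (hψ _ _ h1)).length_le
    simpa using h2

theorem Eval.conv {φ : List ℕ → List ℕ} {p r : ℕ → ℕ} (hφ : Mono φ) (h : Eval φ p r) :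
    Conv (fun n => φ (pre p n)) r := (conv_pre p).comp hφ h

theorem Conv.unique {a : ℕ → List ℕ} {u v : ℕ → ℕ} (hu : Conv a u) (hv : Conv a v) : u = v := by
  funext i
  obtain ⟨N, hN⟩ := hu.2 (i + 1)
  have h1 := hu.1 N
  have h2 := hv.1 N
  have h3 : pre u (a N).length = pre v (a N).length := by rw [← h1, ← h2]
  exact pre_eq_iff.1 h3 i (hN N le_rfl)

/-- The finite version of `join`. -/
def joinL (a b : List ℕ) : List ℕ :=
  (List.range (2 * min a.length b.length)).map
    (fun i => if i % 2 = 0 then a.getD (i / 2) 0 else b.getD (i / 2) 0)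

theorem pre_getD (p : ℕ → ℕ) (n i : ℕ) (h : i < n) : (pre p n).getD i 0 = p i := by
  rw [List.getD_eq_getElem _ _ (by simpa using h)]
  exact pre_getElem p n i _

theorem joinL_pre (p q : ℕ → ℕ) (m n : ℕ) :
    joinL (pre p m) (pre q n) = pre (join p q) (2 * min m n) := by
  unfold joinL
  simp only [pre_length]
  apply List.map_congr_left
  intro i hi
  rw [List.mem_range] at hi
  unfold join
  have h1 : i / 2 < m := by omega
  have h2 : i / 2 < n := by omega
  split_ifs
  · exact pre_getD p m _ h1
  · exact pre_getD q n _ h2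

theorem Conv.join {a b : ℕ → List ℕ} {u v : ℕ → ℕ} (ha : Conv a u) (hb : Conv b v) :
    Conv (fun n => joinL (a n) (b n)) (join u v) := by
  have key : ∀ n, joinL (a n) (b n) = pre (Q204.WD.join u v) (2 * min (a n).length (b n).length) := by
    intro n
    conv_lhs => rw [ha.1 n, hb.1 n]
    exact joinL_pre _ _ _ _
  constructor
  · intro n
    show joinL (a n) (b n) = pre _ (joinL (a n) (b n)).length
    rw [key n, pre_length]
  · intro m
    obtain ⟨N, hN⟩ := ha.2 m
    obtain ⟨M, hM⟩ := hb.2 m
    refine ⟨max N M, fun n hn => ?_⟩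
    show m ≤ (joinL (a n) (b n)).length
    rw [key n, pre_length]
    have h1 := hN n (le_trans (le_max_left _ _) hn)
    have h2 := hM n (le_trans (le_max_right _ _) hn)
    have h3 : m ≤ min (a n).length (b n).length := le_min h1 h2
    omega

theorem prefix_iff_getD {l l' : List ℕ} : l <+: l' ↔
    l.length ≤ l'.length ∧ ∀ i < l.length, l.getD i 0 = l'.getD i 0 := by
  constructor
  · intro h
    refine ⟨h.length_le, fun i hi => ?_⟩
    obtain ⟨t, rfl⟩ := h
    rw [List.getD_append _ _ _ _ hi]
  · rintro ⟨h1, h2⟩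
    rw [List.prefix_iff_eq_take]
    apply List.ext_getElem
    · simp [h1]
    · intro i hi hi'
      rw [List.getElem_take]
      have := h2 i hi
      rw [List.getD_eq_getElem _ _ hi, List.getD_eq_getElem _ _ (by omega)] at this
      exact this

theorem joinL_prefix {a a' b b' : List ℕ} (ha : a <+: a') (hb : b <+: b') :
    joinL a b <+: joinL a' b' := by
  have hla := ha.length_le
  have hlb := hb.length_le
  have h1 : 2 * min a.length b.length ≤ 2 * min a'.length b'.length := by
    have : min a.length b.length ≤ min a'.length b'.length := min_le_min hla hlb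
    omega
  have hmap : joinL a b = (List.range (2 * min a.length b.length)).map
      (fun i => if i % 2 = 0 then a'.getD (i / 2) 0 else b'.getD (i / 2) 0) := by
    apply List.map_congr_left
    intro i hi
    rw [List.mem_range] at hi
    have h2 : i / 2 < a.length := by omega
    have h3 : i / 2 < b.length := by omega
    rw [(prefix_iff_getD.1 ha).2 _ h2, (prefix_iff_getD.1 hb).2 _ h3]
  rw [hmap]
  exact pre_prefix (p := fun i => if i % 2 = 0 then a'.getD (i / 2) 0 else b'.getD (i / 2) 0) h1

end Q204.WD
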