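import Mathlib

set_option autoImplicit false

/-!
# Problems on Baire space and Weihrauch reducibility

Points of Baire space are functions `ℕ → ℕ`.  A (computable) functional is given by a (computable)
monotone map on finite sequences.
-/

namespace Q204.WD

/-- The initial segment of length `n` of a sequence. -/
def pre (p : ℕ → ℕ) (n : ℕ) : List ℕ := (List.range n).map p

/-- Monotone maps on finite sequences (for the relation `is an initial segment of`). -/
def Mono (φ : List ℕ → List ℕ) : Prop := ∀ l l' : List ℕ, l <+: l' → φ l <+: φ l'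

/-- `Eval φ p r`: the functional given by the monotone map `φ` is defined at `p` with value `r`, i.e.
every initial segment of `r` is an initial segment of `φ (p|n)` for some `n`. -/
def Eval (φ : List ℕ → List ℕ) (p r : ℕ → ℕ) : Prop := ∀ m, ∃ n, pre r m <+: φ (pre p n)

/-- The pair `⟨p, q⟩`. -/
def join (p q : ℕ → ℕ) (n : ℕ) : ℕ := if n % 2 = 0 then p (n / 2) else q (n / 2)

/-- A problem: a multivalued partial function on Baire space.  `f p` is the set of solutions of the
instance `p`, and `p` is an instance (is in the domain) iff this set is nonempty. -/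
abbrev Problem : Type := (ℕ → ℕ) → Set (ℕ → ℕ)

/-- The domain of a problem. -/
def dom (f : Problem) : Set (ℕ → ℕ) := {p | (f p).Nonempty}

/-- Weihrauch reducibility: there are computable functionals `Φ`, `Ψ` such that for all
`p ∈ dom f`: `Φ p ∈ dom g` and `Ψ ⟨p, q⟩ ∈ f p` for all `q ∈ g (Φ p)`. -/
def WRed (f g : Problem) : Prop :=
  ∃ φ ψ : List ℕ → List ℕ, (Computable φ ∧ Mono φ) ∧ (Computable ψ ∧ Mono ψ) ∧
    ∀ p ∈ dom f, ∃ u, Eval φ p u ∧ u ∈ dom g ∧ ∀ q ∈ g u, ∃ s, Eval ψ (join p q) s ∧ s ∈ f p

/-- Weihrauch equivalence. -/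
def WEquiv (f g : Problem) : Prop := WRed f g ∧ WRed g f

/-- Composition `f ∘ g` of problems: an instance of `g` all of whose solutions are instances of `f`;
a solution is a solution of the `f`-instance `q` for some solution `q` of the `g`-instance. -/
def comp (f g : Problem) : Problem :=
  fun p => {r | p ∈ dom g ∧ (∀ q ∈ g p, q ∈ dom f) ∧ ∃ q ∈ g p, r ∈ f q}

end Q204.WD
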